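import Pool.Agent.BSI.Stmts
import Pool.Agent.BSH.Stmts

/-!
# BSI row ACT (all circuits)
-/

set_option autoImplicit false

namespace Pool.Agent.BSI.H90

open MvPolynomial Pool.Agent.Helper78_ACIT Pool.Agent.BSH

/-- the arithmetic of the bounds -/
theorem act_num (r : ℕ) :
    64 * (2 ^ (r ^ 2) + 2 ^ (r ^ 2) * (4 * r ^ 2 + (5 * r ^ 2 + 2 * r + 1) *
      (2 ^ ((4 * r + 2) * r) + 1)) + 1) ^ 2 ≤ 2 ^ (10 * r ^ 2 + 8 * r + 20) := by
  obtain ⟨X, hX⟩ : ∃ X, X = 2 ^ (r ^ 2) := ⟨_, rfl⟩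
  obtain ⟨Y, hY⟩ : ∃ Y, Y = 2 ^ ((4 * r + 2) * r) := ⟨_, rfl⟩
  obtain ⟨Z, hZ⟩ : ∃ Z, Z = 2 ^ (2 * r) := ⟨_, rfl⟩
  have hX1 : 1 ≤ X := by rw [hX]; exact Nat.one_le_two_pow
  have hY1 : 1 ≤ Y := by rw [hY]; exact Nat.one_le_two_pow
  have hZ1 : 1 ≤ Z := by rw [hZ]; exact Nat.one_le_two_pow
  have hr : r + 1 ≤ 2 ^ r := Nat.lt_two_pow_self
  have hZr : (r + 1) * (r + 1) ≤ Z := by
    rw [hZ, two_mul, pow_add]
    exact Nat.mul_le_mul hr hr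
  have hr2 : r ^ 2 ≤ Z := by nlinarith
  have hr1 : r ≤ Z := by nlinarith
  have hXY : X ≤ X * Y := Nat.le_mul_of_pos_right _ hY1
  have hL : 5 * r ^ 2 + 2 * r + 1 ≤ 8 * Z := by omega
  have h4 : 4 * r ^ 2 ≤ 4 * Z := by omega
  have hXYZ : 1 * 1 ≤ X * Y := Nat.mul_le_mul hX1 hY1
  have hin : X + X * (4 * r ^ 2 + (5 * r ^ 2 + 2 * r + 1) * (Y + 1)) + 1 ≤ 128 * (X * Y * Z) := by
    have h1 : 4 * r ^ 2 + (5 * r ^ 2 + 2 * r + 1) * (Y + 1) ≤ 4 * Z + 8 * Z * (2 * Y) := by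
      have h2 : (5 * r ^ 2 + 2 * r + 1) * (Y + 1) ≤ 8 * Z * (2 * Y) :=
        Nat.mul_le_mul hL (by omega)
      omega
    have h3 : 4 * Z + 8 * Z * (2 * Y) ≤ 20 * (Y * Z) := by
      have : Z ≤ Y * Z := Nat.le_mul_of_pos_left _ hY1
      have e : 8 * Z * (2 * Y) = 16 * (Y * Z) := by ring
      omega
    have h5 : X * (4 * r ^ 2 + (5 * r ^ 2 + 2 * r + 1) * (Y + 1)) ≤ X * (20 * (Y * Z)) :=
      Nat.mul_le_mul_left _ (h1.trans h3)
    have e : X * (20 * (Y * Z)) = 20 * (X * Y * Z) := by ring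
    have h6 : X * Y ≤ X * Y * Z := Nat.le_mul_of_pos_right _ hZ1
    omega
  have hpow : 128 * (X * Y * Z) = 2 ^ (5 * r ^ 2 + 4 * r + 7) := by
    have e1 : (128 : ℕ) = 2 ^ 7 := by norm_num
    rw [e1, hX, hY, hZ, ← pow_add, ← pow_add, ← pow_add]
    congr 1
    ring
  rw [← hX, ← hY]
  calc 64 * (X + X * (4 * r ^ 2 + (5 * r ^ 2 + 2 * r + 1) * (Y + 1)) + 1) ^ 2
      ≤ 64 * (2 ^ (5 * r ^ 2 + 4 * r + 7)) ^ 2 := by
        rw [← hpow]
        exact Nat.mul_le_mul_left _ (Nat.pow_le_pow_left hin 2)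
    _ = 2 ^ (10 * r ^ 2 + 8 * r + 20) := by
        have e1 : (64 : ℕ) = 2 ^ 6 := by norm_num
        rw [e1, ← pow_mul, ← pow_add]
        congr 1
        ring

theorem act_dl (r : ℕ) :
    2 ^ (r ^ 2) * (2 ^ ((4 * r + 2) * r) + 1) ≤ 2 ^ (5 * r ^ 2 + 2 * r + 1) := by
  have h1 : 2 ^ (r ^ 2) * 2 ^ ((4 * r + 2) * r) = 2 ^ (5 * r ^ 2 + 2 * r) := by
    rw [← pow_add]
    congr 1
    ring
  have h2 : 2 ^ (r ^ 2) ≤ 2 ^ (5 * r ^ 2 + 2 * r) := Nat.pow_le_pow_right (by norm_num) (by omega)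
  rw [mul_add, mul_one, h1, pow_succ 2 (5 * r ^ 2 + 2 * r)]
  omega

theorem act (hC : BSH.CirStmt) (hH : Hi2Stmt) (hT : Ts2Stmt) (hD : DlnStmt) : ActStmt := by
  intro r G hr hG hlen hvar
  obtain ⟨hd1, hd2⟩ := hD G hG
  have hcheap : IsCheap ℚ (4 * r + r * r) (r ^ 2) (map (Int.castRingHom ℚ) (poly G)) := by
    apply hC ℚ (4 * r + r * r) (r ^ 2) G hG
    · intro v hv
      have := hvar v hv
      have e : r ^ 2 = r * r := by ring
      omega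
    · exact List.countP_le_length.trans hlen
  have hP : ∀ F : MvPolynomial ℕ ℚ, IsCheap ℚ (4 * r + r * r) (r ^ 2) F → F ≠ 0 →
      ∃ ξ : Fin (4 * r) → ℚ, eval (pt r (4 * r + 2) r (ext ξ)) F ≠ 0 := by
    intro F hF hF0
    have h := hH ℚ r (4 * r + 2) r (r ^ 2) [F] hr (by
      have : 3 * r ^ 2 + 5 * r * r + 4 * r = 2 * r * (4 * r + 2) := by ring
      exact this.le) (by
      intro F' hF'
      rw [List.mem_singleton] at hF'
      rw [hF']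
      exact hF) (by simpa using hF0)
    simpa using h
  have hor : poly G = 0 ∨ ((poly G).totalDegree ≤ 2 ^ (r ^ 2) ∧
      Pool.Agent.UO.length (poly G) ≤ 2 ^ 2 ^ (r ^ 2) ∧
      ∃ F : MvPolynomial ℕ ℚ, IsCheap ℚ (4 * r + r * r) (r ^ 2) F ∧ F ≠ 0 ∧
        map (Int.castRingHom ℚ) (poly G) ∣ F) := by
    by_cases h0 : poly G = 0
    · exact Or.inl h0
    · refine Or.inr ⟨hd1.trans (Nat.pow_le_pow_right (by norm_num) hlen),
        hd2.trans (Nat.pow_le_pow_right (by norm_num) (Nat.pow_le_pow_right (by norm_num) hlen)),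
        _, hcheap, ?_, dvd_rfl⟩
      intro h
      apply h0
      have hinj : Function.Injective (map (σ := ℕ) (Int.castRingHom ℚ)) :=
        MvPolynomial.map_injective _ Int.cast_injective
      apply hinj
      rw [h, map_zero]
  have hmain := hT ℚ r (4 * r + 2) r hr (fun F => IsCheap ℚ (4 * r + r * r) (r ^ 2) F) hP
    (2 ^ (r ^ 2)) (2 ^ (r ^ 2)) (5 * r ^ 2 + 2 * r + 1) G (act_dl r) hG hor
  constructor
  · rintro ⟨-, h0⟩ p _ _ ξ
    unfold tval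
    rw [out_eq_eval, h0]
    exact MvPolynomial.eval₂_zero _ _
  · intro htest
    apply hmain.mpr
    intro p hp hple ξ
    have hlt : ∀ j, (ξ j : ℕ) < 2 ^ (5 * r ^ 2 + 2 * r + 1) + 1 := by
      intro j
      have h1 := (ξ j).2
      have h2 := act_dl r
      omega
    exact htest p hp (hple.trans (act_num r)) (fun j => ⟨ξ j, hlt j⟩)

end Pool.Agent.BSI.H90
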